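import Pool.Agent.H98.MQ.QFA

/-! # [H97 TR FQS] The machine for rational points (helper98)

Proved in `Pool/Agent/H98/MQ` (`QFA.lean`). `h_v = hh = log |x_v|`, `ell_v = log |x_v/w_v| ≥ ϱ_v h_v`. The homogenised curve
`homF d w F` has again Puiseux data (the expansions `x_i(ω T)`, `ω^e = w`), so a curve with a rational point gives a pointed curve
`hom P : Ptd n` with the integer point `(x, y)`; its local expansions and the matrix `MG` are used as before, Siegel's lemma and the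
tail are estimated on the curve itself, and `det (MG (hom P)) (w X) = (∏ w^D)^s det (MGq P)`. -/

namespace Pool.Agent.H97.TR

open Finset Polynomial Pool.Agent.H72.ES Pool.Agent.H87.SA2 Pool.Agent.H8.AW Pool.Agent.H52.AC
  Pool.Agent.H97.NW Pool.Agent.H98.MR

theorem far_q (m n κ : ℕ) (hm : 1 ≤ m) (hn : 4 ≤ n) (γ : ℝ) (hγ : 0 < γ) (ϱ : Fin m → ℝ)
    (hϱ : ∀ v, 0 < ϱ v) (hϱ1 : ∀ v, ϱ v ≤ 1) : ∃ (R : ℝ) (c : ℕ), 1 ≤ R ∧
    ∀ (P : Fin m → Ptr n) (PP : Finset (∀ v, Fin (P v).d)), StbR P PP →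
      (fun v => (P v).i) ∈ PP →
      (1 + γ) * ((m : ℝ) ^ m * PP.card) ≤ (m.factorial : ℝ) * ∏ v, (ϱ v * ((P v).d : ℝ)) →
      (∀ v, ϱ v * (P v).hh ≤ (P v).ell) → (∀ v, Rlr κ c (P v)) →
      ¬ ∀ i j : Fin m, i < j → R * (P j).hh ≤ (P i).hh :=
  Pool.Agent.H98.MQ.far_q m n κ hm hn γ hγ ϱ hϱ hϱ1

end Pool.Agent.H97.TR
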