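import Pool.Agent.H87.TR.TWF
import Pool.Agent.H87.TR.RER

/-! # [H97 TR TWR] The twisted curve of a rational fibre (helper87)

As `exists_tyE` (`Pool/Agent/H98/TY/TYF.lean`, `TYG.lean`) for `t = a/w`: weights from the integral numbers
`thR pd m a w u`, `(q T)^e = w/a`, base coordinate `x^m`, point `x = (a/w)^m`, `y = ∑_u W_u (thR u)/w^m + mu a/w`, so
`P.x = a^m`, `P.w = w^m`, `P.y = ∑ W_u thR u + mu a w^(m-1)` (`tw_int` for `fr n m f a w`). The algebra (`exists_algV`) depends only on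
the weights: replace `fa f a` by `fr n m f a w`. `evy0` for the homogenised curve from the uniqueness of the branch.
`eqC` gives the equidistribution. -/

namespace Pool.Agent.H97.TR

open Finset Polynomial Pool.Agent.H72.ES Pool.Agent.H87.SA Pool.Agent.H87.SA2 Pool.Agent.H8.AW
  Pool.Agent.H52.AC Pool.Agent.H97.NW Pool.Agent.H97.FB Pool.Agent.H98.MR Pool.Agent.H87.TR
  Pool.Agent.H97.TV Pool.Agent.H98.TY

theorem exists_tyR (n m : ℕ) (hn : 2 ≤ n) (hm : 1 ≤ m) : ∃ κ : ℕ, 1 ≤ κ ∧ ∀ c : ℕ, ∃ C : ℕ,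
    ∀ (B : ℕ) (f : ℤ[X][X]) (Fm : FamB n m B f) (a w : ℕ), 1 ≤ w → B ^ C * w ≤ a → ∀ ν : ℕ,
    m * n.factorial ≤ ν → ∃ P : Ptr ν, P.x = ((a ^ m : ℕ) : ℤ) ∧ P.w = w ^ m ∧ Rlr κ c P ∧
      TauR (thR Fm.pd m a w) Fm.pd P := by
  obtain ⟨C1, hC1, h1⟩ := exists_redR n m
  obtain ⟨κ, hκ, h2⟩ := exists_tyR0 n m hn hm
  refine ⟨κ, hκ, fun c => ?_⟩
  obtain ⟨C2, h3⟩ := h2 c
  refine ⟨C1 * C2 + C1, fun B f Fm a w hw ha ν hν => ?_⟩
  obtain ⟨Fm', hmin, hth, hpr⟩ := h1 B f Fm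
  have hB1 : 0 < B := by
    have := Fm.B2
    omega
  have hle : ∀ k, k ≤ C1 * C2 + C1 → B ^ k * w ≤ a :=
    fun k hk => (Nat.mul_le_mul_right w (Nat.pow_le_pow_right hB1 hk)).trans ha
  obtain ⟨P, hx, hwP, hr, tau, ht1, ht2, ht3, ht4⟩ := h3 (B ^ C1) f Fm' hmin a w hw
    (by rw [← pow_mul]; exact hle _ (by omega)) ν hν
  have hth' : thR Fm'.pd m a w = thR Fm.pd m a w := funext (hth a w hw (hle C1 (by omega)))
  refine ⟨P, hx, hwP, hr, tau, ht1, ?_, ?_, ht4⟩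
  · intro σ ν' hν' i j hk
    rw [← hth'] at hν'
    obtain ⟨π, hπ, h4⟩ := ht2 σ ν' hν' i j hk
    exact ⟨π, hpr σ π hπ, h4⟩
  · intro ζ hζ i j hr'
    obtain ⟨π, hπ, h4⟩ := ht3 ζ hζ i j hr'
    exact ⟨π, hpr idA π hπ, h4⟩

end Pool.Agent.H97.TR
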