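import Pool.Agent.H97.TR.THR
import Pool.Agent.H98.MR.RTH
import Pool.Agent.H97.TV.NPV

/-! # [H97 TR RLR] Integer points as rational points; real roots lie on real branches -/

namespace Pool.Agent.H97.TR

open Finset Polynomial Pool.Agent.H72.ES Pool.Agent.H87.SA Pool.Agent.H87.SA2 Pool.Agent.H8.AW
  Pool.Agent.H52.AC Pool.Agent.H97.NW Pool.Agent.H34.AC Pool.Agent.H97.FB Pool.Agent.H97.GA
  Pool.Agent.H97.TV Pool.Agent.H98.MR

theorem ofPtd_ell {n : ℕ} (P : Ptd n) : (ofPtd P).ell = P.ell := by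
  unfold Ptr.ell Ptd.ell
  show Real.log (|(P.x : ℝ)| / ((1 : ℕ) : ℝ)) = _
  rw [Nat.cast_one, div_one]

theorem ofPtd_hh {n : ℕ} (P : Ptd n) : (ofPtd P).hh = P.ell := rfl

theorem rlr_of_rlx {n κ c : ℕ} {P : Ptd n} (h : Rlx κ c P) : Rlr κ c (ofPtd P) := by
  obtain ⟨ρ, h⟩ := h
  refine ⟨ρ, h.ρ2, ?_, h.q_le, h.gr, h.b_le, ?_⟩
  · show ρ ^ c ≤ |(P.x : ℝ)| / ((1 : ℕ) : ℝ)
    rw [Nat.cast_one, div_one]
    exact h.thr
  · show evy P.d (homF P.d 1 P.F) P.x P.y ≠ 0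
    rw [homF_one]
    exact h.evy0

theorem rlr_of_thr {n κ c : ℕ} (hn : 4 ≤ n) (hκ : 1 ≤ κ) (P : Ptd n) (h : P.Thr (cA n + 2 * c)) :
    Rlr κ c (ofPtd P) := rlr_of_rlx (rlx_of_thr hn hκ P h)

/-- a real root of the fibre lies on a real branch -/
theorem fam_realR (n m : ℕ) : ∃ C : ℕ, ∀ (B : ℕ) (f : ℤ[X][X]) (Fm : FamB n m B f) (a w : ℕ),
    1 ≤ w → B ^ C * w ≤ a → ∀ l, starRingEnd ℂ (thR Fm.pd m a w l) = thR Fm.pd m a w l →
    (Fm.pd.x l).map (starRingEnd ℂ) = Fm.pd.x l := by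
  obtain ⟨CT, hTR⟩ := thR_rts n m
  refine ⟨CT + 3 * n.factorial, fun B f Fm a w hw ha l hl => ?_⟩
  have hB2 := Fm.B2
  have h1 : B ^ CT * w ≤ a :=
    (Nat.mul_le_mul_right _ (Nat.pow_le_pow_right (by omega) (by omega))).trans ha
  have h2 : B ^ (3 * n.factorial) * w ≤ a :=
    (Nat.mul_le_mul_right _ (Nat.pow_le_pow_right (by omega) (by omega))).trans ha
  have ha1 : 1 ≤ a := (Nat.mul_pos (by positivity) hw : 0 < B ^ CT * w).trans_le h1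
  obtain ⟨-, hinj⟩ := hTR B f Fm a w hw h1
  have hXA := XR_big n m Fm hw h2
  have hX0 := XR_pos Fm.pd ha1 hw
  obtain ⟨j, hj⟩ := perm_of Fm.pd (PowerSeries.map (starRingEnd ℂ)) (tq_conj' _ _) l
  have h3 : thR Fm.pd m a w j = starRingEnd ℂ (thR Fm.pd m a w l) := by
    unfold thR
    rw [evC_eq_evz (one_div_pos.2 hX0).le (XR_gr Fm.pd ha1 hw hXA j),
      evC_eq_evz (one_div_pos.2 hX0).le (XR_gr Fm.pd ha1 hw hXA l), map_mul, map_pow,
      Complex.conj_natCast]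
    congr 1
    have h4 := evT_conj ((1 / XR Fm.pd a w : ℝ) : ℂ) (Fm.pd.x l)
    rw [Complex.conj_ofReal, hj] at h4
    exact h4
  rw [hl] at h3
  have h4 : j = l := hinj h3
  rw [h4] at hj
  exact hj

end Pool.Agent.H97.TR
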