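import Pool.Agent.H97.TV.Defs2
import Pool.Agent.H98.MR.Defs

/-!
# MP_821da1_nt, THEOREM W: rational fibres `f(a/w, Z)`: definitions

`homF d w F`: the array of the homogenised curve `w^d F(X/w, Y/w)`.
`Ptr n`: a curve in normal form with a rational point `(x/w, y/w)` on the branch `i`, parameter `T`.
`ell = log |x/w|`, `hh = log |x|` (at least the height). `ofPtd`: an integer point (`w = 1`).
`StbR`, `LbR`, `TauR`: as `Stb`, `LbG`, `TauE`.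
`Rcr κ c P ρ`: relaxed bounds: all coefficients of the expansions are at most `|x|^κ ρ^k`, `q ≤ ρ`, `ρ^c ≤ |x/w|`,
`b ≤ |x|^κ`, and the point is not singular in the direction of `y`. `Rlr κ c P`: there is such a `ρ`.
`fr n m f a w`: the monic integral polynomial `w^(m n) f(a/w, Z / w^m)`; `thR pd m a w`: its roots.
`NumR M n r s ϱ`: the numerical condition. `BadR`: a bad rational fibre.
-/

namespace Pool.Agent.H97.TR

open Finset Polynomial Pool.Agent.H72.ES Pool.Agent.H87.SA Pool.Agent.H87.SA2 Pool.Agent.H87.AX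
  Pool.Agent.H8.AW Pool.Agent.H52.AC Pool.Agent.H97.NW Pool.Agent.H34.AC Pool.Agent.H97.FB
  Pool.Agent.H97.FC Pool.Agent.H97.GA Pool.Agent.H37.TU Pool.Agent.H97.TU Pool.Agent.H97.TV

/-- the array of the homogenised curve `w^d F(X/w, Y/w)` -/
def homF (d w : ℕ) (F : ℕ → ℕ → ℤ) (i j : ℕ) : ℤ := F i j * (w : ℤ) ^ (d - i - j)

/-- a curve in normal form with the rational point `(x/w, y/w)` on the branch `i`, `T` its parameter -/
structure Ptr (n : ℕ) where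
  d : ℕ
  b : ℕ
  F : ℕ → ℕ → ℤ
  C : CrvB n d b F
  i : Fin d
  T : ℂ
  x : ℤ
  y : ℤ
  w : ℕ
  w1 : 1 ≤ w
  zero : H72.ES.ev d (homF d w F) x y = 0
  hT : ((C.pd.q : ℂ) * T) ^ C.pd.e * (x : ℂ) = (w : ℂ)
  hy : evz T (C.pd.x i) = (y : ℂ) / (x : ℂ)

/-- the logarithm of the first coordinate of the point -/
noncomputable def Ptr.ell {n : ℕ} (P : Ptr n) : ℝ := Real.log (|(P.x : ℝ)| / P.w)

/-- the logarithm of the numerator -/
noncomputable def Ptr.hh {n : ℕ} (P : Ptr n) : ℝ := Real.log |(P.x : ℝ)|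

theorem homF_one (d : ℕ) (F : ℕ → ℕ → ℤ) : homF d 1 F = F := by
  funext i j
  simp [homF]

/-- an integer point -/
def ofPtd {n : ℕ} (P : Ptd n) : Ptr n where
  d := P.d
  b := P.b
  F := P.F
  C := P.C
  i := P.i
  T := P.T
  x := P.x
  y := P.y
  w := 1
  w1 := le_rfl
  zero := by
    rw [homF_one]
    exact P.zero
  hT := by
    rw [Nat.cast_one]
    exact P.hT
  hy := P.hy

/-- stability of a set of `m`-tuples of branches -/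
def StbR {m n : ℕ} (P : Fin m → Ptr n) (PP : Finset (∀ v, Fin (P v).d)) : Prop :=
  (∀ σ : AA →+* ℂ, ∀ p ∈ PP, ∀ p' : ∀ v, Fin (P v).d,
    (∀ (v : Fin m) (k : ℕ) (a : AA), (a : ℂ) = PowerSeries.coeff k ((P v).C.pd.x (p v)) →
      σ a = PowerSeries.coeff k ((P v).C.pd.x (p' v))) → p' ∈ PP) ∧
  (∀ ζ : Fin m → ℂ, (∀ v, ζ v ^ (P v).C.pd.e = 1) → ∀ p ∈ PP, ∀ p' : ∀ v, Fin (P v).d,
    (∀ v, PowerSeries.rescale (ζ v) ((P v).C.pd.x (p v)) = (P v).C.pd.x (p' v)) → p' ∈ PP)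

/-- relaxed bounds for a curve with a rational point -/
structure Rcr {n : ℕ} (κ c : ℕ) (P : Ptr n) (ρ : ℝ) : Prop where
  ρ2 : 2 ≤ ρ
  thr : ρ ^ c ≤ |(P.x : ℝ)| / P.w
  q_le : (P.C.pd.q : ℝ) ≤ ρ
  gr : ∀ i k, ‖PowerSeries.coeff k (P.C.pd.x i)‖ ≤ |(P.x : ℝ)| ^ κ * ρ ^ k
  b_le : (P.b : ℝ) ≤ |(P.x : ℝ)| ^ κ
  evy0 : evy P.d (homF P.d P.w P.F) P.x P.y ≠ 0

/-- the curve with the rational point is relaxed -/
def Rlr {n : ℕ} (κ c : ℕ) (P : Ptr n) : Prop := ∃ ρ : ℝ, Rcr κ c P ρ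

/-- a labelling of the orbit of the near branch -/
structure LbR {ν r : ℕ} {ι : Type} (P : Ptr ν) (Θ : ι → Fin r → ℂ) (l0 : ι) where
  S : Finset (Fin P.d)
  th : Fin P.d → ι
  mem : P.i ∈ S
  near : th P.i = l0
  gal : ∀ σ : AA →+* ℂ, ∀ i ∈ S, ∀ j : Fin P.d,
    (∀ (k : ℕ), Cj σ (PowerSeries.coeff k (P.C.pd.x i)) (PowerSeries.coeff k (P.C.pd.x j))) →
    j ∈ S ∧ ∀ u, Cj σ (Θ (th i) u) (Θ (th j) u)
  rot : ∀ ζ : ℂ, ζ ^ P.C.pd.e = 1 → ∀ i ∈ S, ∀ j : Fin P.d,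
    PowerSeries.rescale ζ (P.C.pd.x i) = P.C.pd.x j → j ∈ S ∧ th j = th i

/-- labels of an integer point -/
theorem lbR_of {ν r : ℕ} {ι : Type} {P : Ptd ν} {Θ : ι → Fin r → ℂ} {l0 : ι}
    (h : Nonempty (LbG P Θ l0)) : Nonempty (LbR (ofPtd P) Θ l0) := by
  obtain ⟨L⟩ := h
  exact ⟨⟨L.S, L.th, L.mem, L.near, L.gal, L.rot⟩⟩

/-- the branches carry equidistributed permutations, the near branch carries the identity -/
def TauR {g : ℤ[X][X]} {n nu : ℕ} (θ : Fin n → ℂ) (pd : PData g n) (p : Ptr nu) : Prop :=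
  ∃ tau : Fin p.d → Equiv.Perm (Fin n), tau p.i = 1 ∧
    (∀ (σ : AA →+* ℂ) (ν : Equiv.Perm (Fin n)), Prm θ σ ν → ∀ i j : Fin p.d,
      (∀ k : ℕ, Cj σ (PowerSeries.coeff k (p.C.pd.x i)) (PowerSeries.coeff k (p.C.pd.x j))) →
      ∃ π, PrmB pd σ π ∧ tau j = ν * tau i * π⁻¹) ∧
    (∀ ζ : ℂ, ζ ^ p.C.pd.e = 1 → ∀ i j : Fin p.d,
      PowerSeries.rescale ζ (p.C.pd.x i) = p.C.pd.x j →
      ∃ π, PrmB pd idA π ∧ tau j = tau i * π⁻¹) ∧
    ∀ u w : Fin n, n * (univ.filter fun j => tau j u = w).card ≤ p.d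

/-- the monic integral polynomial `w^(m n) f(a/w, Z / w^m)` -/
noncomputable def fr (n m : ℕ) (f : ℤ[X][X]) (a w : ℕ) : ℤ[X] :=
  ∑ i ∈ range (n + 1), C (∑ j ∈ range (m * (n - i) + 1),
    (f.coeff i).coeff j * (a : ℤ) ^ j * (w : ℤ) ^ (m * (n - i) - j)) * X ^ i

/-- the real number `X0` with `X0^e = q^e a/w` -/
noncomputable def XR {g : ℤ[X][X]} {n : ℕ} (pd : PData g n) (a w : ℕ) : ℝ :=
  pd.q * ((a : ℝ) / w) ^ ((1 : ℝ) / pd.e)

/-- the roots of `fr n m f a w` -/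
noncomputable def thR {g : ℤ[X][X]} {n : ℕ} (pd : PData g n) (m a w : ℕ) (i : Fin n) : ℂ :=
  (a : ℂ) ^ m * evC (1 / XR pd a w) (pd.x i)

/-- the numerical condition -/
def NumR (M n r s : ℕ) (ϱ : ℝ) : Prop :=
  ((2 * M : ℕ) : ℝ) ^ (2 * M) * (r * (s : ℝ) ^ M) < ((2 * M).factorial : ℝ) * (ϱ * (r * n)) ^ M

/-- a bad rational fibre -/
structure BadR (n m ν c s : ℕ) (ϱ R1 : ℝ) (β : ℂ) where
  a : ℕ
  w : ℕ
  b : ℕ
  f : ℤ[X][X]
  Fm : FamB n m b f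
  l : Fin n
  O : Nonempty (OrbD Fm.pd s β l)
  P : Ptd ν
  L : Nonempty (LbG P (v1 (thR Fm.pd m a w)) l)
  w1 : 1 ≤ w
  ba : b ^ c * w ≤ a
  wa : ϱ * Real.log a ≤ Real.log ((a : ℝ) / w)
  thr : P.Thr c
  big : R1 * Real.log a ≤ P.ell

end Pool.Agent.H97.TR
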