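import Pool.Agent.H97.TR.Defs
import Pool.Agent.H97.FB.THA
import Pool.Agent.H97.FB.ANV
import Pool.Agent.H98.MR.RPF

/-! # [H97 TR THR] The roots of the rational fibres

As `thA_rts` (`Pool/Agent/H97/FB/THA.lean`) and `thA_norm` (`Pool/Agent/H97/FC/THB.lean`) with `a` replaced by the rational number `a / w`:
`thR = a^m evC (1/XR) (x_i)`, `XR^e = q^e a / w`; `w^(m n) f(a/w, Z / w^m) = ∏ (Z - thR i)`:
`fr n m f a w` at `a^m z` is `a^(m n) (rv n m f)(w/a, z)`. -/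

namespace Pool.Agent.H97.TR

open Finset Polynomial Pool.Agent.H72.ES Pool.Agent.H87.SA Pool.Agent.H87.SA2 Pool.Agent.H8.AW
  Pool.Agent.H52.AC Pool.Agent.H97.NW Pool.Agent.H97.FB Pool.Agent.H97.GA Pool.Agent.H98.MR

theorem fr_coeff {n m : ℕ} (f : ℤ[X][X]) (a w i : ℕ) (hi : i ≤ n) :
    (fr n m f a w).coeff i = ∑ j ∈ range (m * (n - i) + 1),
      (f.coeff i).coeff j * (a : ℤ) ^ j * (w : ℤ) ^ (m * (n - i) - j) := by
  unfold fr
  rw [finsetSum_coeff, Finset.sum_eq_single i]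
  · rw [coeff_C_mul_X_pow, if_pos rfl]
  · intro j _ hj
    rw [coeff_C_mul_X_pow, if_neg (fun h => hj h.symm)]
  · intro h
    exact absurd (Finset.mem_range.2 (by omega)) h

theorem fr_deg_le {n m : ℕ} (f : ℤ[X][X]) (a w : ℕ) : (fr n m f a w).natDegree ≤ n := by
  unfold fr
  refine natDegree_sum_le_of_forall_le _ _ fun i hi => ?_
  rw [Finset.mem_range] at hi
  exact (natDegree_C_mul_X_pow_le _ _).trans (by omega)

theorem fr_monic {n m : ℕ} {f : ℤ[X][X]} (hf : f.Monic) (hd : f.natDegree = n) (a w : ℕ) :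
    (fr n m f a w).Monic ∧ (fr n m f a w).natDegree = n := by
  have h1 : (fr n m f a w).coeff n = 1 := by
    rw [fr_coeff f a w n le_rfl, Nat.sub_self, mul_zero, zero_add, sum_range_one, pow_zero]
    have h2 : f.coeff n = 1 := by
      rw [← hd]
      exact hf
    rw [h2, coeff_one_zero]
    simp
  refine ⟨monic_of_natDegree_le_of_coeff_eq_one n (fr_deg_le f a w) h1,
    le_antisymm (fr_deg_le f a w) (le_natDegree_of_ne_zero ?_)⟩
  rw [h1]
  exact one_ne_zero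

/-- the fibre at an integer -/
theorem fr_one {n m : ℕ} {f : ℤ[X][X]} (hd : f.natDegree = n)
    (hc : ∀ i, (f.coeff i).natDegree ≤ m * (n - i)) (a : ℕ) : fr n m f a 1 = fa f a := by
  ext i
  by_cases hi : i ≤ n
  · rw [fr_coeff f a 1 i hi]
    unfold fa
    rw [coeff_map, coe_evalRingHom, eval_eq_sum_range' (Nat.lt_succ_of_le (hc i))]
    refine sum_congr rfl fun j _ => ?_
    simp
  · rw [coeff_eq_zero_of_natDegree_lt ((fr_deg_le f a 1).trans_lt (by omega)),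
      coeff_eq_zero_of_natDegree_lt]
    unfold fa
    exact natDegree_map_le.trans_lt (by omega)

theorem XR_pos {g : ℤ[X][X]} {n : ℕ} (pd : PData g n) {a w : ℕ} (ha : 1 ≤ a) (hw : 1 ≤ w) :
    0 < XR pd a w := by
  unfold XR
  have h1 : (0 : ℝ) < a := by exact_mod_cast ha
  have h2 : (0 : ℝ) < w := by exact_mod_cast hw
  exact mul_pos (by linarith [anv_q pd]) (Real.rpow_pos_of_pos (div_pos h1 h2) _)

theorem XR_pow {g : ℤ[X][X]} {n : ℕ} (pd : PData g n) (a w : ℕ) :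
    XR pd a w ^ pd.e = (pd.q : ℝ) ^ pd.e * ((a : ℝ) / w) := by
  unfold XR
  have h0 : (0 : ℝ) ≤ (a : ℝ) / w := by positivity
  rw [mul_pow, ← Real.rpow_natCast (((a : ℝ) / w) ^ ((1 : ℝ) / pd.e)), ← Real.rpow_mul h0,
    one_div, inv_mul_cancel₀, Real.rpow_one]
  have h1 := pd.e_pos
  have h2 : pd.e ≠ 0 := by omega
  exact_mod_cast h2

/-- the size of `XR` -/
theorem XR_big (n m : ℕ) {B : ℕ} {f : ℤ[X][X]} (Fm : FamB n m B f) {a w : ℕ} (hw : 1 ≤ w)
    (ha : B ^ (3 * n.factorial) * w ≤ a) : 4 * Fm.pd.R ≤ XR Fm.pd a w := by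
  have hB2 := Fm.B2
  have hBr : (2 : ℝ) ≤ B := by exact_mod_cast hB2
  have hwr : (0 : ℝ) < w := by exact_mod_cast hw
  have har : (0 : ℝ) ≤ (a : ℝ) / w := by positivity
  have he1 := Fm.pd.e_pos
  have he0 : Fm.pd.e ≠ 0 := by omega
  have hq1 : (1 : ℝ) ≤ Fm.pd.q := by exact_mod_cast Fm.pd.q_pos
  have hroot : (B : ℝ) ^ 3 ≤ ((a : ℝ) / w) ^ ((1 : ℝ) / Fm.pd.e) := by
    have h1 : ((B : ℝ) ^ 3) ^ Fm.pd.e ≤ (a : ℝ) / w := by
      rw [le_div_iff₀ hwr]
      have h2 : (B ^ 3) ^ Fm.pd.e * w ≤ a := by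
        rw [← pow_mul]
        exact (Nat.mul_le_mul_right _ (Nat.pow_le_pow_right (by omega)
          (Nat.mul_le_mul_left 3 Fm.e_le))).trans ha
      exact_mod_cast h2
    have h3 := Real.rpow_le_rpow (by positivity) h1 (by positivity : (0 : ℝ) ≤ (1 : ℝ) / Fm.pd.e)
    rw [one_div, Real.pow_rpow_inv_natCast (by positivity) he0] at h3
    rw [one_div]
    exact h3
  have hX0 : (B : ℝ) ^ 3 ≤ XR Fm.pd a w := by
    unfold XR
    have h1 : 0 ≤ ((a : ℝ) / w) ^ ((1 : ℝ) / Fm.pd.e) := Real.rpow_nonneg har _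
    nlinarith
  have hBB : 4 * (B : ℝ) ≤ (B : ℝ) ^ 3 := by nlinarith [mul_self_nonneg ((B : ℝ) - 2)]
  have := Fm.R_le
  linarith

/-- the expansions converge -/
theorem XR_gr {g : ℤ[X][X]} {n : ℕ} (pd : PData g n) {a w : ℕ} (ha : 1 ≤ a) (hw : 1 ≤ w)
    (h : 4 * pd.R ≤ XR pd a w) (i : Fin n) : Gr (1 / XR pd a w) (pd.x i) := by
  have h1 := XR_pos pd ha hw
  refine anv_gr pd (one_div_pos.2 h1).le ?_ i
  rw [mul_one_div, div_lt_one h1]
  linarith [pd.R_ge]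

/-- the parameter -/
theorem XR_par {g : ℤ[X][X]} {n : ℕ} (pd : PData g n) {a w : ℕ} (ha : 1 ≤ a) (hw : 1 ≤ w) :
    ((pd.q : ℂ) * ((1 / XR pd a w : ℝ) : ℂ)) ^ pd.e = (w : ℂ) * ((a : ℂ))⁻¹ := by
  have hX := XR_pos pd ha hw
  have hq0 : (pd.q : ℝ) ≠ 0 := by linarith [anv_q pd]
  have ha0 : (a : ℝ) ≠ 0 := by
    have : a ≠ 0 := by omega
    exact_mod_cast this
  have hw0 : (w : ℝ) ≠ 0 := by
    have : w ≠ 0 := by omega
    exact_mod_cast this
  have h1 : ((pd.q : ℝ) * (1 / XR pd a w)) ^ pd.e = (w : ℝ) * (a : ℝ)⁻¹ := by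
    rw [mul_pow, _root_.div_pow, one_pow, XR_pow]
    have h2 : (pd.q : ℝ) ^ pd.e ≠ 0 := pow_ne_zero _ hq0
    field_simp
  have h2 := congrArg (fun z : ℝ => (z : ℂ)) h1
  push_cast at h2 ⊢
  exact h2

private theorem refl_sum (p : ℤ[X]) (N : ℕ) (hp : p.natDegree ≤ N) {a w : ℂ} (ha : a ≠ 0) :
    a ^ N * eval₂ (Int.castRingHom ℂ) (w * a⁻¹) (reflect N p) =
      ∑ j ∈ range (N + 1), (p.coeff j : ℂ) * a ^ j * w ^ (N - j) := by
  have h1 : (reflect N p).natDegree ≤ N :=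
    natDegree_reflect_le.trans (max_le le_rfl hp)
  rw [eval₂_eq_sum_range' _ (Nat.lt_succ_of_le h1), mul_sum,
    ← sum_range_reflect (fun j => (p.coeff j : ℂ) * a ^ j * w ^ (N - j))]
  refine sum_congr rfl fun k hk => ?_
  rw [mem_range] at hk
  rw [coeff_reflect, revAt_le (by omega : k ≤ N)]
  have h2 : N + 1 - 1 - k = N - k := by omega
  have h3 : N - (N - k) = k := by omega
  rw [h2, h3, mul_pow, inv_pow]
  have h4 : a ^ N = a ^ (N - k) * a ^ k := by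
    rw [← pow_add]
    congr 1
    omega
  have h5 : a ^ k ≠ 0 := pow_ne_zero _ ha
  rw [h4]
  simp only [eq_intCast]
  field_simp

/-- the fibre of the reversed family -/
theorem fr_fibre {n m : ℕ} {f : ℤ[X][X]}
    (hc : ∀ i, (f.coeff i).natDegree ≤ m * (n - i)) {a w : ℕ} (ha : 1 ≤ a) (z : ℂ) :
    ((fr n m f a w).map (Int.castRingHom ℂ)).eval ((a : ℂ) ^ m * z) =
      (a : ℂ) ^ (m * n) * ((rv n m f).map (eval₂RingHom (Int.castRingHom ℂ)
        ((w : ℂ) * ((a : ℂ))⁻¹))).eval z := by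
  have haC : (a : ℂ) ≠ 0 := by
    have : a ≠ 0 := by omega
    exact_mod_cast this
  have hrv : (rv n m f).natDegree ≤ n := by
    unfold rv
    refine natDegree_sum_le_of_forall_le _ _ fun i hi => ?_
    rw [Finset.mem_range] at hi
    exact (natDegree_C_mul_X_pow_le _ _).trans (by omega)
  rw [eval_map, eval₂_eq_sum_range' _ (Nat.lt_succ_of_le (fr_deg_le f a w)), eval_map,
    eval₂_eq_sum_range' _ (Nat.lt_succ_of_le hrv), Finset.mul_sum]
  refine Finset.sum_congr rfl fun i hi => ?_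
  rw [Finset.mem_range] at hi
  have h1 : (rv n m f).coeff i = reflect (m * (n - i)) (f.coeff i) := by
    unfold rv
    rw [finsetSum_coeff, Finset.sum_eq_single i]
    · rw [coeff_C_mul_X_pow, if_pos rfl]
    · intro j _ hj
      rw [coeff_C_mul_X_pow, if_neg (fun h => hj h.symm)]
    · intro h
      exact absurd (Finset.mem_range.2 (by omega)) h
  rw [fr_coeff f a w i (by omega), h1, coe_eval₂RingHom, mul_pow, ← pow_mul]
  have h2 := refl_sum (f.coeff i) (m * (n - i)) (hc i) (w := (w : ℂ)) haC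
  have h3 : m * n = m * (n - i) + m * i := by
    rw [← Nat.mul_add]
    congr 1
    omega
  rw [h3, pow_add]
  calc (Int.castRingHom ℂ) (∑ j ∈ range (m * (n - i) + 1),
        (f.coeff i).coeff j * (a : ℤ) ^ j * (w : ℤ) ^ (m * (n - i) - j)) *
        ((a : ℂ) ^ (m * i) * z ^ i)
      = (∑ j ∈ range (m * (n - i) + 1),
        ((f.coeff i).coeff j : ℂ) * (a : ℂ) ^ j * (w : ℂ) ^ (m * (n - i) - j)) *
        ((a : ℂ) ^ (m * i) * z ^ i) := by
        congr 1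
        rw [eq_intCast]
        push_cast
        rfl
    _ = (a : ℂ) ^ (m * (n - i)) * eval₂ (Int.castRingHom ℂ) ((w : ℂ) * ((a : ℂ))⁻¹)
        (reflect (m * (n - i)) (f.coeff i)) * ((a : ℂ) ^ (m * i) * z ^ i) := by
        rw [h2]
    _ = _ := by ring

/-- the roots of the reversed family at `w / a` -/
theorem rv_split {n m : ℕ} {B : ℕ} {f : ℤ[X][X]} (Fm : FamB n m B f) {a w : ℕ} (ha : 1 ≤ a)
    (hw : 1 ≤ w) (h : 4 * Fm.pd.R ≤ XR Fm.pd a w) :
    (rv n m f).map (eval₂RingHom (Int.castRingHom ℂ) ((w : ℂ) * ((a : ℂ))⁻¹)) =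
      ∏ i, (X - C (evC (1 / XR Fm.pd a w) (Fm.pd.x i))) := by
  have hX := XR_pos Fm.pd ha hw
  have hR := Fm.pd.R_ge
  have h1 := split_r Fm.pd (U := Fm.pd.R) (ρ := Fm.pd.R) (by linarith) (fun i k => by
    refine (Fm.pd.growth i k).trans_eq ?_
    rw [pow_succ, mul_comm]) (T := ((1 / XR Fm.pd a w : ℝ) : ℂ)) (by
      rw [Complex.norm_real, Real.norm_eq_abs, abs_of_pos (one_div_pos.2 hX), mul_one_div,
        div_lt_one hX]
      linarith)
  rw [XR_par Fm.pd ha hw] at h1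
  rw [h1]
  refine prod_congr rfl fun i _ => ?_
  rw [evC_eq_evz (one_div_pos.2 hX).le (XR_gr Fm.pd ha hw h i)]

private theorem thr_double {n : ℕ} (z : Fin n → ℂ) {i j : Fin n} (hij : j ≠ i) (h : z j = z i) :
    (derivative (∏ k, (X - C (z k)))).eval (z i) = 0 := by
  classical
  have h1 : ∏ k, (X - C (z k)) = (X - C (z i)) * ((X - C (z j)) *
      ∏ k ∈ (univ.erase i).erase j, (X - C (z k))) := by
    rw [mul_prod_erase (univ.erase i) (fun k => X - C (z k)) (mem_erase.2 ⟨hij, mem_univ j⟩),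
      mul_prod_erase univ (fun k => X - C (z k)) (mem_univ i)]
  rw [h1, derivative_mul, derivative_mul, h]
  simp

theorem thR_rts (n m : ℕ) : ∃ C : ℕ, ∀ (B : ℕ) (f : ℤ[X][X]) (Fm : FamB n m B f) (a w : ℕ),
    1 ≤ w → B ^ C * w ≤ a → Rts (fr n m f a w) (thR Fm.pd m a w) := by
  refine ⟨3 * n.factorial, fun B f Fm a w hw ha => ?_⟩
  have hB2 := Fm.B2
  have hfac : 1 ≤ n.factorial := Nat.factorial_pos n
  have hBR := XR_big n m Fm hw ha
  have hB3 : B ^ 3 * w ≤ a :=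
    (Nat.mul_le_mul_right _ (Nat.pow_le_pow_right (by omega) (by omega))).trans ha
  have hB4 : B + 2 ≤ B ^ 3 := by
    have h1 : 2 ^ 2 ≤ B ^ 2 := Nat.pow_le_pow_left hB2 2
    have h2 : 2 ^ 2 * B ≤ B ^ 2 * B := Nat.mul_le_mul_right B h1
    have h3 : B ^ 2 * B = B ^ 3 := by ring
    omega
  have ha1 : 1 ≤ a := by
    have h1 : 1 ≤ B ^ 3 * w := Nat.mul_pos (by positivity) hw
    omega
  have haC : (a : ℂ) ≠ 0 := by
    have : a ≠ 0 := by omega
    exact_mod_cast this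
  have ham : (a : ℂ) ^ m ≠ 0 := pow_ne_zero _ haC
  have hsp := rv_split Fm ha1 hw hBR
  refine ⟨?_, ?_⟩
  · refine Polynomial.funext fun z => ?_
    obtain ⟨u, rfl⟩ : ∃ u : ℂ, (a : ℂ) ^ m * u = z :=
      ⟨((a : ℂ) ^ m)⁻¹ * z, by rw [mul_inv_cancel_left₀ ham]⟩
    rw [fr_fibre Fm.cdeg ha1, hsp, eval_prod, eval_prod, pow_mul]
    have h3 : ((a : ℂ) ^ m) ^ n = ∏ _i : Fin n, (a : ℂ) ^ m := by
      rw [Finset.prod_const, Finset.card_univ, Fintype.card_fin]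
    rw [h3, ← Finset.prod_mul_distrib]
    refine Finset.prod_congr rfl fun i _ => ?_
    rw [eval_sub, eval_X, eval_C, eval_sub, eval_X, eval_C]
    unfold thR
    ring
  · intro i j hij
    unfold thR at hij
    have h1 := mul_left_cancel₀ ham hij
    by_contra hne
    obtain ⟨u, v, c, hc0, hbez, -, hcle⟩ := Fm.bez
    have h2 := Pool.Agent.H97.XC.near_zero_bd hc0 B hcle w a hw
      ((Nat.mul_le_mul_right _ hB4).trans hB3)
    obtain ⟨φ, hφ⟩ : ∃ φ : ℤ[X] →+* ℂ,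
      φ = eval₂RingHom (Int.castRingHom ℂ) ((w : ℂ) * ((a : ℂ))⁻¹) := ⟨_, rfl⟩
    rw [← hφ] at hsp
    have h3 := congrArg (fun p => (p.map φ).eval (evC (1 / XR Fm.pd a w) (Fm.pd.x i))) hbez
    simp only [Polynomial.map_add, Polynomial.map_mul, map_C, eval_add, eval_mul, eval_C] at h3
    rw [← Polynomial.derivative_map, hsp,
      thr_double (fun k => evC (1 / XR Fm.pd a w) (Fm.pd.x k)) (Ne.symm hne) h1.symm, mul_zero, add_zero,
      eval_prod, Finset.prod_eq_zero (Finset.mem_univ i) (by rw [eval_sub, eval_X, eval_C, sub_self]),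
      mul_zero] at h3
    apply h2
    rw [h3, hφ]
    rfl

theorem thR_norm (n m : ℕ) : ∃ C : ℕ, ∀ (B : ℕ) (f : ℤ[X][X]) (Fm : FamB n m B f) (a w : ℕ),
    1 ≤ w → B ^ C * w ≤ a → ∀ l, ‖thR Fm.pd m a w l‖ ≤ (a : ℝ) ^ C := by
  refine ⟨3 * n.factorial + m + 2, fun B f Fm a w hw ha l => ?_⟩
  have hB2 := Fm.B2
  have hBR := XR_big n m Fm hw ((Nat.mul_le_mul_right _ (Nat.pow_le_pow_right (by omega)
    (by omega))).trans ha)
  have hBa : B ^ 2 ≤ a := by
    have h1 : B ^ 2 ≤ B ^ (3 * n.factorial + m + 2) := Nat.pow_le_pow_right (by omega) (by omega)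
    exact (h1.trans (Nat.le_mul_of_pos_right _ hw)).trans ha
  have ha1 : 1 ≤ a := (Nat.one_le_pow 2 B (by omega)).trans hBa
  have haR : (1 : ℝ) ≤ a := by exact_mod_cast ha1
  have hX := XR_pos Fm.pd ha1 hw
  have hR := Fm.pd.R_ge
  have hRB := Fm.R_le
  have h1 : ‖evC (1 / XR Fm.pd a w) (Fm.pd.x l)‖ ≤ 2 * Fm.pd.R := by
    rw [evC_eq_evz (one_div_pos.2 hX).le (XR_gr Fm.pd ha1 hw hBR l)]
    refine evz_le (C := Fm.pd.R) (R := Fm.pd.R) (by linarith) (by linarith) ?_ (fun k => ?_)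
    · rw [Complex.norm_real, Real.norm_eq_abs, abs_of_pos (one_div_pos.2 hX), mul_one_div,
        div_le_div_iff₀ hX (by norm_num)]
      linarith
    · refine (Fm.pd.growth l k).trans_eq ?_
      rw [pow_succ, mul_comm]
  have hBr : (2 : ℝ) ≤ B := by exact_mod_cast hB2
  have h2 : 2 * Fm.pd.R ≤ (a : ℝ) := by
    have h3 : (B : ℝ) ^ 2 ≤ a := by exact_mod_cast hBa
    nlinarith
  unfold thR
  rw [norm_mul, norm_pow, Complex.norm_natCast]
  calc (a : ℝ) ^ m * ‖evC (1 / XR Fm.pd a w) (Fm.pd.x l)‖ ≤ (a : ℝ) ^ m * a :=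
        mul_le_mul_of_nonneg_left (h1.trans h2) (by positivity)
    _ = (a : ℝ) ^ (m + 1) := by rw [pow_succ]
    _ ≤ (a : ℝ) ^ (3 * n.factorial + m + 2) := pow_le_pow_right₀ haR (by omega)

end Pool.Agent.H97.TR
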